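import Pool.Agent.H487.GL.Gam
import Pool.Agent.H487.GL.LinOf

/-!
# The L-function to the right of the critical line and the completed L-function
-/

set_option autoImplicit false

open Filter Topology Set
open scoped ComplexConjugate

namespace Pool.Agent.H487.EL

open NB NZ Pool.Agent.H487.GL H353.E H353.F Complex

lemma gr_ne {s μ : ℂ} (hμ : μ.re ≤ 1 / 2) (hs : 1 / 2 ≤ s.re) (hne : s ≠ μ) : Gammaℝ (s - μ) ≠ 0 := by
  intro h0
  rw [Gammaℝ_eq_zero_iff] at h0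
  obtain ⟨n, hn⟩ := h0
  have h1 : (s - μ).re = -(2 * n) := by rw [hn]; simp
  rw [sub_re] at h1
  have h3 : (0 : ℝ) ≤ n := Nat.cast_nonneg n
  have h4 : (n : ℝ) = 0 := by linarith
  have h5 : n = 0 := by exact_mod_cast h4
  rw [h5] at hn
  apply hne
  rw [← sub_eq_zero, hn]
  simp

lemma lf_id' {m : ℕ} {N : ℝ} (hN : 1 ≤ N) {μ : Fin m → ℂ} (hμ : ∀ j, (μ j).re ≤ 1 / 2) (Λ : ℂ → ℂ) {s : ℂ} (hs : 1 / 2 ≤ s.re)
    (hne : ∀ j, s ≠ μ j) :
    (∏ j, (s - μ j)) * NB.xi N Λ s * N = (2 * Real.pi) ^ m * (gaf N μ (s + 2) * Lf μ Λ s) := by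
  have hN0 : (N : ℂ) ≠ 0 := by
    have : (0:ℝ) < N := by linarith
    exact_mod_cast this.ne'
  have hpi : (Real.pi : ℂ) ≠ 0 := by exact_mod_cast Real.pi_ne_zero
  have hG : ∀ j, Gammaℝ (s - μ j) ≠ 0 := fun j => gr_ne (hμ j) hs (hne j)
  have h1 : ∀ j, Gammaℝ (s + 2 - μ j) = Gammaℝ (s - μ j) * ((s - μ j) / (2 * Real.pi)) := by
    intro j
    have e : s + 2 - μ j = (s - μ j) + 2 := by ring
    rw [e, Gammaℝ_add_two (sub_ne_zero.mpr (hne j))]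
    field_simp
  have h2 : ∏ j, Gammaℝ (s + 2 - μ j) = (∏ j, Gammaℝ (s - μ j)) * ((∏ j, (s - μ j)) / (2 * Real.pi) ^ m) := by
    rw [Finset.prod_congr rfl fun j _ => h1 j, Finset.prod_mul_distrib, Finset.prod_div_distrib, Finset.prod_const, Finset.card_univ,
      Fintype.card_fin]
  have h3 : (∏ j, Gammaℝ (s - μ j)) * ∏ j, (Gammaℝ (s - μ j))⁻¹ = 1 := by
    rw [← Finset.prod_mul_distrib]
    exact Finset.prod_eq_one fun j _ => mul_inv_cancel₀ (hG j)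
  have h4 : (N : ℂ) ^ ((s + 2) / 2) = (N : ℂ) ^ (s / 2) * N := by
    have e : (s + 2) / 2 = s / 2 + 1 := by ring
    rw [e, cpow_add _ _ hN0, cpow_one]
  unfold NB.xi gaf Lf
  rw [h2, h4]
  have h5 : (2 * (Real.pi : ℂ)) ^ m ≠ 0 := pow_ne_zero _ (mul_ne_zero two_ne_zero hpi)
  have h6 : (2 * (Real.pi : ℂ)) ^ m * ((∏ j, (s - μ j)) / (2 * Real.pi) ^ m) = ∏ j, (s - μ j) := mul_div_cancel₀ _ h5
  linear_combination (-(N : ℂ) ^ (s / 2) * N * (∏ j, (s - μ j)) * Λ s) * h3 -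
    (N : ℂ) ^ (s / 2) * N * (∏ j, Gammaℝ (s - μ j)) * Λ s * (∏ j, (Gammaℝ (s - μ j))⁻¹) * h6

lemma lf_norm' {m : ℕ} {N : ℝ} (hN : 1 ≤ N) {μ : Fin m → ℂ} (hμ : ∀ j, (μ j).re ≤ 1 / 2) (Λ : ℂ → ℂ) {s : ℂ} (hs : 1 / 2 ≤ s.re)
    (hne : ∀ j, s ≠ μ j) :
    ‖∏ j, (s - μ j)‖ * ‖NB.xi N Λ s‖ * N = (2 * Real.pi) ^ m * (‖gaf N μ (s + 2)‖ * ‖Lf μ Λ s‖) := by
  have h := congrArg norm (lf_id' hN hμ Λ hs hne)
  rw [norm_mul, norm_mul, norm_mul, norm_mul, norm_pow, norm_mul, Complex.norm_real, Complex.norm_real, Complex.norm_two,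
    Real.norm_of_nonneg Real.pi_pos.le, Real.norm_of_nonneg (by linarith : 0 ≤ N)] at h
  exact h

/-- the gamma factor in a box -/
lemma gaf_box (m : ℕ) (hm : 1 ≤ m) (A : ℝ) (hA : 0 ≤ A) : ∃ E : ℝ, 1 ≤ E ∧ ∀ (N : ℝ) (μ : Fin m → ℂ), 1 ≤ N → (∀ j, (μ j).re ≤ 1 / 2) →
    ∀ y u v : ℝ, 0 ≤ u → u ≤ 2 → |v| ≤ A →
      ‖gaf N μ (pt y (u + 2) v)‖ ≤ E * (‖gaf N μ (5 / 2 + y * I)‖ * Real.exp (1 / 2 * Real.log (NB.cond N μ y) * u)) ∧
      ‖gaf N μ (5 / 2 + y * I)‖ * Real.exp (1 / 2 * Real.log (NB.cond N μ y) * u) ≤ E * ‖gaf N μ (pt y (u + 2) v)‖ := by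
  have hm' : (1 : ℝ) ≤ m := by exact_mod_cast hm
  set C : ℝ := 6 * m with hC
  have hC1 : 1 ≤ C := by rw [hC]; linarith
  have hE0 : 0 ≤ 2 * (C * A + C * 6) + C * A := by positivity
  refine ⟨Real.exp (2 * (C * A + C * 6) + C * A), Real.one_le_exp hE0, fun N μ hN hμ y u v hu0 hu2 hv => ?_⟩
  set ℓ : ℝ := 1 / 2 * Real.log (NB.cond N μ y) with hℓ
  have hℓ0 : 0 ≤ ℓ := by
    have := Real.log_nonneg (cond_one hN μ y)
    rw [hℓ]; linarith
  have gp := gaf_GP hm hN hμ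
  set γ : ℂ → ℂ := gaf N μ with hγ
  have hcs : ∀ w : ℝ, 1 / 2 * Real.log (NB.cond N μ w) ≤ ℓ + C * |w - y| ∧ ℓ - C * |w - y| ≤ 1 / 2 * Real.log (NB.cond N μ w) := by
    intro w
    have h1 := cond_shift hN μ y w
    have h2 := cond_shift hN μ w y
    rw [abs_sub_comm y w] at h2
    have h3 := abs_nonneg (w - y)
    have h4 : 0 ≤ (m : ℝ) * |w - y| := by positivity
    rw [hℓ, hC]
    constructor <;> linarith
  have hDre : ∀ z : ℂ, 5 / 2 ≤ z.re → |(gaD N μ z).re - ℓ| ≤ C * |z.im - y| + C * (1 + z.re) := by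
    intro z hz
    have h1 := gaD_near hN hμ (s := z) (by linarith)
    have h2 := hcs z.im
    rw [abs_le]
    have h3 : 5 * (m : ℝ) ≤ C * (1 + z.re) := by
      have g := mul_nonneg (by linarith : (0 : ℝ) ≤ m) (by linarith : 0 ≤ z.re)
      rw [hC]; linarith
    have h4 : (5 + z.re) * (m : ℝ) ≤ C * (1 + z.re) := by rw [hC]; linarith
    constructor <;> linarith [h1.1, h1.2, h2.1, h2.2]
  have hv1 : ‖γ (5 / 2 + ((y + v : ℝ) : ℂ) * I)‖ ≤ Real.exp (C * |v|) * ‖γ (5 / 2 + y * I)‖ := by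
    have h1 := vert_ge gp (s := 5 / 2 + ((y + v : ℝ) : ℂ) * I) (by
      simp only [add_re, mul_re, ofReal_re, I_re, ofReal_im, I_im]; norm_num) (-v)
    rw [abs_neg] at h1
    have e : 5 / 2 + ((y + v : ℝ) : ℂ) * I + ((-v : ℝ) : ℂ) * I = 5 / 2 + y * I := by push_cast; ring
    rwa [e] at h1
  have hv2 : ‖γ (5 / 2 + y * I)‖ ≤ Real.exp (C * |v|) * ‖γ (5 / 2 + ((y + v : ℝ) : ℂ) * I)‖ := by
    have h1 := vert_ge gp (s := 5 / 2 + (y : ℂ) * I) (by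
      simp only [add_re, mul_re, ofReal_re, I_re, ofReal_im, I_im]; norm_num) v
    have e : 5 / 2 + (y : ℂ) * I + (v : ℂ) * I = 5 / 2 + ((y + v : ℝ) : ℂ) * I := by push_cast; ring
    rwa [e] at h1
  have hpt : ∀ r : ℝ, 5 / 2 + ((y + v : ℝ) : ℂ) * I + (r : ℂ) * ((u : ℝ) : ℂ) = pt y (2 + r * u) v := by
    intro r
    apply Complex.ext
    · rw [pt_re]
      simp only [add_re, mul_re, ofReal_re, I_re, ofReal_im, I_im]
      norm_num
      ring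
    · rw [pt_im]
      simp
  have hr1 : ‖γ (pt y (u + 2) v)‖ ≤ ‖γ (5 / 2 + ((y + v : ℝ) : ℂ) * I)‖ * Real.exp (u * (ℓ + C * |v| + C * 6)) := by
    have h1 := seg_le gp (s := 5 / 2 + ((y + v : ℝ) : ℂ) * I) (v := ((u : ℝ) : ℂ))
      (A := u * (ℓ + C * |v| + C * 6)) (fun r hr => ?_) (fun r hr => ?_)
    · have e := hpt 1
      rw [Complex.ofReal_one, one_mul, one_mul, add_comm (2 : ℝ) u] at e
      rwa [e] at h1
    · rw [hpt, pt_re]
      linarith [mul_nonneg hr.1 hu0]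
    · rw [hpt, Complex.re_mul_ofReal, mul_comm]
      refine mul_le_mul_of_nonneg_left ?_ hu0
      have h2 := (abs_le.mp (hDre (pt y (2 + r * u) v) (by rw [pt_re]; linarith [mul_nonneg hr.1 hu0]))).2
      rw [pt_re, pt_im, add_sub_cancel_left] at h2
      have h3 : r * u ≤ u := mul_le_of_le_one_left hu0 hr.2
      have h4 : C * (1 + (1 / 2 + (2 + r * u))) ≤ C * 6 := by
        refine mul_le_mul_of_nonneg_left ?_ (by linarith)
        linarith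
      linarith
  have hr2 : ‖γ (5 / 2 + ((y + v : ℝ) : ℂ) * I)‖ ≤ ‖γ (pt y (u + 2) v)‖ * Real.exp (-(u * (ℓ - C * |v| - C * 6))) := by
    have hpt2 : ∀ r : ℝ, pt y (u + 2) v + (r : ℂ) * (-((u : ℝ) : ℂ)) = pt y (2 + (1 - r) * u) v := by
      intro r
      apply Complex.ext
      · simp only [add_re, mul_re, neg_re, neg_im, ofReal_re, ofReal_im, pt_re]
        ring
      · simp only [add_im, mul_im, neg_re, neg_im, ofReal_re, ofReal_im, pt_im]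
        ring
    have h1 := seg_le gp (s := pt y (u + 2) v) (v := -((u : ℝ) : ℂ))
      (A := -(u * (ℓ - C * |v| - C * 6))) (fun r hr => ?_) (fun r hr => ?_)
    · have e : pt y (u + 2) v + -((u : ℝ) : ℂ) = 5 / 2 + ((y + v : ℝ) : ℂ) * I := by
        have e2 := hpt2 1
        rw [Complex.ofReal_one, one_mul] at e2
        rw [e2]
        have e3 := hpt 0
        rw [Complex.ofReal_zero, zero_mul, zero_mul, add_zero, add_zero] at e3
        rw [e3, sub_self, zero_mul, add_zero]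
      rwa [e] at h1
    · rw [hpt2, pt_re]
      linarith [mul_nonneg (sub_nonneg.mpr hr.2) hu0]
    · rw [hpt2, ← Complex.ofReal_neg, Complex.re_mul_ofReal]
      have h2 := (abs_le.mp (hDre (pt y (2 + (1 - r) * u) v) (by rw [pt_re]; linarith [mul_nonneg (sub_nonneg.mpr hr.2) hu0]))).1
      rw [pt_re, pt_im, add_sub_cancel_left] at h2
      have h3 : (1 - r) * u ≤ u := by linarith [mul_nonneg hr.1 hu0]
      have h4 : C * (1 + (1 / 2 + (2 + (1 - r) * u))) ≤ C * 6 := by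
        refine mul_le_mul_of_nonneg_left ?_ (by linarith)
        linarith
      have h5 : ℓ - C * |v| - C * 6 ≤ (gaD N μ (pt y (2 + (1 - r) * u) v)).re := by linarith
      have h6 := mul_le_mul_of_nonneg_left h5 hu0
      linarith
  have hCv : C * |v| ≤ C * A := by gcongr
  have huC : u * (C * |v| + C * 6) ≤ 2 * (C * A + C * 6) := by gcongr
  have hγ0 : 0 ≤ ‖γ (5 / 2 + y * I)‖ := norm_nonneg _
  constructor
  · calc ‖γ (pt y (u + 2) v)‖ ≤ (Real.exp (C * |v|) * ‖γ (5 / 2 + y * I)‖) * Real.exp (u * (ℓ + C * |v| + C * 6)) :=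
          hr1.trans (by gcongr)
      _ = Real.exp (u * (C * |v| + C * 6) + C * |v|) * (‖γ (5 / 2 + y * I)‖ * Real.exp (ℓ * u)) := by
          have : u * (ℓ + C * |v| + C * 6) = u * (C * |v| + C * 6) + ℓ * u := by ring
          rw [this, Real.exp_add _ (ℓ * u), Real.exp_add _ (C * |v|)]
          ring
      _ ≤ _ := by
          refine mul_le_mul_of_nonneg_right (Real.exp_le_exp.mpr ?_) (by positivity)
          linarith
  · calc ‖γ (5 / 2 + y * I)‖ * Real.exp (ℓ * u)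
        ≤ (Real.exp (C * |v|) * (‖γ (pt y (u + 2) v)‖ * Real.exp (-(u * (ℓ - C * |v| - C * 6))))) * Real.exp (ℓ * u) := by
          refine mul_le_mul_of_nonneg_right (hv2.trans ?_) (Real.exp_pos _).le
          gcongr
      _ = Real.exp (u * (C * |v| + C * 6) + C * |v|) * ‖γ (pt y (u + 2) v)‖ := by
          have : -(u * (ℓ - C * |v| - C * 6)) = u * (C * |v| + C * 6) + -(ℓ * u) := by ring
          rw [this, Real.exp_add _ (-(ℓ * u)), Real.exp_add _ (C * |v|)]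
          have h1 : Real.exp (-(ℓ * u)) * Real.exp (ℓ * u) = 1 := by rw [← Real.exp_add]; simp
          linear_combination (Real.exp (C * |v|) * ‖γ (pt y (u + 2) v)‖ * Real.exp (u * (C * |v| + C * 6))) * h1
      _ ≤ _ := by
          refine mul_le_mul_of_nonneg_right (Real.exp_le_exp.mpr ?_) (norm_nonneg _)
          linarith

/-- the L-function from the completed L-function -/
lemma lf_of_xi (m : ℕ) (hm : 1 ≤ m) : ∃ E : ℝ, 1 ≤ E ∧ ∀ (N : ℝ) (μ : Fin m → ℂ), 1 ≤ N → (∀ j, (μ j).re ≤ 1 / 2) → ∀ (Λ : ℂ → ℂ) (y u b : ℝ),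
    0 ≤ u → u ≤ 2 → ‖NB.xi N Λ (NZ.pt y u 0)‖ ≤ Mb N μ y * Real.exp (1 / 2 * Real.log (NB.cond N μ y) * u) * b →
      ‖Lf μ Λ (NZ.pt y u 0)‖ ≤ E * b := by
  obtain ⟨E, hE, H⟩ := gaf_box m hm 0 le_rfl
  refine ⟨E * 4 ^ m, one_le_mul_of_one_le_of_one_le hE (one_le_pow₀ (by norm_num)), fun N μ hN hμ Λ y u b hu0 hu2 hx => ?_⟩
  have hC := cond_one hN μ y
  have hC0 : 0 < NB.cond N μ y := by linarith
  have hN0 : 0 < N := by linarith
  have gp := gaf_GP hm hN hμ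
  have hγ0 : 0 < ‖gaf N μ (5 / 2 + y * I)‖ := norm_pos_iff.mpr (gp.ne _ (by
    simp only [add_re, mul_re, ofReal_re, I_re, ofReal_im, I_im]; norm_num))
  have hMb0 : 0 < Mb N μ y := by unfold Mb; positivity
  have hb0 : 0 ≤ b := by
    by_contra hb
    push Not at hb
    have h1 : Mb N μ y * Real.exp (1 / 2 * Real.log (NB.cond N μ y) * u) * b < 0 := mul_neg_of_pos_of_neg (by positivity) hb
    linarith [norm_nonneg (NB.xi N Λ (NZ.pt y u 0))]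
  by_cases hne : ∀ j, NZ.pt y u 0 ≠ μ j
  · have h1 := lf_norm' hN hμ Λ (s := NZ.pt y u 0) (by rw [NZ.pt_re]; linarith) hne
    have e : NZ.pt y u 0 + 2 = NZ.pt y (u + 2) 0 := by unfold NZ.pt; push_cast; ring
    rw [e] at h1
    have h2 := (H N μ hN hμ y u 0 hu0 hu2 (by simp)).2
    have hMb : Mb N μ y = ‖gaf N μ (5 / 2 + y * I)‖ / NB.cond N μ y := by
      unfold Mb
      rw [Real.exp_neg, Real.exp_log hC0, ← div_eq_mul_inv]
    set P₀ : ℝ := ∏ j, (1 + ‖(y : ℂ) * I - μ j‖) with hP₀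
    have hP0 : 0 < P₀ := Finset.prod_pos fun j _ => by positivity
    have hcond : NB.cond N μ y = N * P₀ := rfl
    have h3 : ‖∏ j, (NZ.pt y u 0 - μ j)‖ ≤ P₀ * 4 ^ m := by
      have := poly_up μ y u 0 4 (by rw [abs_of_nonneg hu0, abs_zero]; linarith)
      exact this
    set e₁ : ℝ := Real.exp (1 / 2 * Real.log (NB.cond N μ y) * u) with he₁
    have he0 : 0 < e₁ := Real.exp_pos _
    have hγ1 : 0 < ‖gaf N μ (NZ.pt y (u + 2) 0)‖ := norm_pos_iff.mpr (gp.ne _ (by rw [NZ.pt_re]; linarith))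
    have h4 : (2 * Real.pi) ^ m * (‖gaf N μ (NZ.pt y (u + 2) 0)‖ * ‖Lf μ Λ (NZ.pt y u 0)‖) ≤
        4 ^ m * (E * ‖gaf N μ (NZ.pt y (u + 2) 0)‖) * b := by
      rw [← h1]
      calc ‖∏ j, (NZ.pt y u 0 - μ j)‖ * ‖NB.xi N Λ (NZ.pt y u 0)‖ * N ≤ (P₀ * 4 ^ m) * (Mb N μ y * e₁ * b) * N := by gcongr
        _ = 4 ^ m * (‖gaf N μ (5 / 2 + y * I)‖ * e₁) * b := by
            rw [hMb, hcond]
            field_simp
        _ ≤ _ := by gcongr
    have h5 : 1 ≤ (2 * Real.pi) ^ m := one_le_pow₀ (by linarith [Real.pi_gt_three])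
    have h6 : ‖gaf N μ (NZ.pt y (u + 2) 0)‖ * ‖Lf μ Λ (NZ.pt y u 0)‖ ≤ ‖gaf N μ (NZ.pt y (u + 2) 0)‖ * (E * 4 ^ m * b) := by
      calc ‖gaf N μ (NZ.pt y (u + 2) 0)‖ * ‖Lf μ Λ (NZ.pt y u 0)‖ ≤ (2 * Real.pi) ^ m * (‖gaf N μ (NZ.pt y (u + 2) 0)‖ * ‖Lf μ Λ (NZ.pt y u 0)‖) :=
            le_mul_of_one_le_left (by positivity) h5
        _ ≤ _ := h4
        _ = _ := by ring
    exact le_of_mul_le_mul_left h6 hγ1
  · push Not at hne
    obtain ⟨j, hj⟩ := hne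
    rw [lf_zero Λ hj, norm_zero]
    positivity

/-- the completed L-function from the L-function -/
lemma xi_of_lf (m : ℕ) (hm : 1 ≤ m) (A : ℝ) (hA : 0 ≤ A) : ∃ E : ℝ, 1 ≤ E ∧ ∀ (N : ℝ) (μ : Fin m → ℂ), 1 ≤ N → (∀ j, (μ j).re ≤ 1 / 2) →
    ∀ (Λ : ℂ → ℂ) (y u v b : ℝ), 0 ≤ u → u ≤ 2 → |v| ≤ A → ‖Lf μ Λ (NZ.pt y u v)‖ ≤ b →
      ‖(∏ j, (NZ.pt y u v - μ j)) * NB.xi N Λ (NZ.pt y u v)‖ ≤
        Mb N μ y * (∏ j, (1 + ‖(y : ℂ) * I - μ j‖)) * (E * Real.exp (1 / 2 * Real.log (NB.cond N μ y) * u) * b) := by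
  obtain ⟨E, hE, H⟩ := gaf_box m hm A hA
  have h2pi : 1 ≤ (2 * Real.pi) ^ m := one_le_pow₀ (by linarith [Real.pi_gt_three])
  refine ⟨(2 * Real.pi) ^ m * E, one_le_mul_of_one_le_of_one_le h2pi hE, fun N μ hN hμ Λ y u v b hu0 hu2 hv hb => ?_⟩
  have hC := cond_one hN μ y
  have hC0 : 0 < NB.cond N μ y := by linarith
  have hN0 : 0 < N := by linarith
  have hb0 : 0 ≤ b := (norm_nonneg _).trans hb
  have gp := gaf_GP hm hN hμ
  have hMb : Mb N μ y = ‖gaf N μ (5 / 2 + y * I)‖ / NB.cond N μ y := by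
    unfold Mb
    rw [Real.exp_neg, Real.exp_log hC0, ← div_eq_mul_inv]
  set P₀ : ℝ := ∏ j, (1 + ‖(y : ℂ) * I - μ j‖) with hP₀
  have hP0 : 0 < P₀ := Finset.prod_pos fun j _ => by positivity
  have hcond : NB.cond N μ y = N * P₀ := rfl
  have hMP : Mb N μ y * P₀ = ‖gaf N μ (5 / 2 + y * I)‖ / N := by
    rw [hMb, hcond]
    field_simp
  rw [hMP]
  by_cases hne : ∀ j, NZ.pt y u v ≠ μ j
  · have h1 := lf_norm' hN hμ Λ (s := NZ.pt y u v) (by rw [NZ.pt_re]; linarith) hne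
    have e : NZ.pt y u v + 2 = NZ.pt y (u + 2) v := by unfold NZ.pt; push_cast; ring
    rw [e] at h1
    have h2 := (H N μ hN hμ y u v hu0 hu2 hv).1
    rw [norm_mul]
    have h4 : ‖∏ j, (NZ.pt y u v - μ j)‖ * ‖NB.xi N Λ (NZ.pt y u v)‖ ≤
        (2 * Real.pi) ^ m * ((E * (‖gaf N μ (5 / 2 + y * I)‖ * Real.exp (1 / 2 * Real.log (NB.cond N μ y) * u))) * b) / N := by
      rw [le_div_iff₀ hN0, h1]
      gcongr
    refine h4.trans (le_of_eq ?_)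
    ring
  · push Not at hne
    obtain ⟨j, hj⟩ := hne
    have h0 : ∏ j, (NZ.pt y u v - μ j) = 0 := Finset.prod_eq_zero (Finset.mem_univ j) (sub_eq_zero.mpr hj)
    rw [h0, zero_mul, norm_zero]
    positivity

end Pool.Agent.H487.EL
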